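import Mathlib

/-!
# MP_623bad_gt, question Q2 (negated form, for all angles at once)

The homeomorphism `T(z) = (1 + |z|^2) z / 2` of the closed unit disk has, for no prescribed triple of
angles, arbitrarily small triangles with these angles congruent to their images.

For `p, q` in the disk with midpoint `m`, `|T p - T q| = |p - q|` is the equation
`4 (m . u)^2 (1 + a + |m|^2) = (1 - a) (3 + a)`, where `u` is the unit vector along `q - p` and
`a = (|p|^2 + |q|^2) / 2`.  In the limit of small triangles this would give three pairwise non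
parallel unit vectors `u` with the same value of `(x . u)^2`, `x` nonzero.
-/

namespace Pool.Agent.Results.MP_623bad_gt.NoSmallSimilar

open Filter Topology EuclideanGeometry

/-- The Euclidean plane. -/
abbrev Plane : Type := EuclideanSpace ℝ (Fin 2)

/-- The closed unit disk. -/
abbrev Disk : Type := Metric.closedBall (0 : Plane) 1

/-- The points `p₁, p₂, p₃` are not collinear and the triangle has interior angles `α, β, γ` at
`p₁, p₂, p₃`. -/
def HasAngles (α β γ : ℝ) (p₁ p₂ p₃ : Plane) : Prop :=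
  ¬ Collinear ℝ {p₁, p₂, p₃} ∧ ∠ p₂ p₁ p₃ = α ∧ ∠ p₁ p₂ p₃ = β ∧ ∠ p₁ p₃ p₂ = γ

/-- The triangle is congruent to its image under `T`. -/
def CongruentToImage {X : Type} [MetricSpace X] (T : X → X) (p₁ p₂ p₃ : X) : Prop :=
  dist (T p₁) (T p₂) = dist p₁ p₂ ∧ dist (T p₁) (T p₃) = dist p₁ p₃ ∧
    dist (T p₂) (T p₃) = dist p₂ p₃

/-- The mutual distances of the three points are less than `ε`. -/
def SidesLt {X : Type} [MetricSpace X] (ε : ℝ) (p₁ p₂ p₃ : X) : Prop :=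
  dist p₁ p₂ < ε ∧ dist p₁ p₃ < ε ∧ dist p₂ p₃ < ε

/-- `T` has arbitrarily small triangles with angles `α, β, γ` congruent to their images. -/
def HasSmallTriangles (T : Disk → Disk) (α β γ : ℝ) : Prop :=
  ∀ ε : ℝ, 0 < ε → ∃ p₁ p₂ p₃ : Disk, HasAngles α β γ p₁ p₂ p₃ ∧ CongruentToImage T p₁ p₂ p₃ ∧
    SidesLt ε p₁ p₂ p₃

/-! ### The homeomorphism -/

/-- The radial map on the plane. -/
noncomputable def rad (z : Plane) : Plane := ((1 + ‖z‖ ^ 2) / 2) • z

theorem norm_rad (z : Plane) : ‖rad z‖ = (1 + ‖z‖ ^ 2) / 2 * ‖z‖ := by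
  rw [rad, norm_smul, Real.norm_of_nonneg (by positivity)]

theorem continuous_rad : Continuous rad := by
  unfold rad
  fun_prop

/-- The basic identity. -/
theorem rad_sub_sq (p q : Plane) :
    4 * ‖rad q - rad p‖ ^ 2 = ‖q - p‖ ^ 2 * (1 + (‖p‖ ^ 2 + ‖q‖ ^ 2) / 2) ^ 2 +
      (inner ℝ (p + q) (q - p)) ^ 2 *
        (1 + (‖p‖ ^ 2 + ‖q‖ ^ 2) / 2 + ‖p + q‖ ^ 2 / 4) := by
  simp only [rad, EuclideanSpace.norm_sq_eq, PiLp.inner_apply, Fin.sum_univ_two, Real.norm_eq_abs,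
    sq_abs, PiLp.sub_apply, PiLp.add_apply, PiLp.smul_apply, smul_eq_mul, RCLike.inner_apply,
    conj_trivial]
  ring

theorem rad_injective : Function.Injective rad := by
  intro p q h
  have h1 := rad_sub_sq p q
  rw [h, sub_self, norm_zero] at h1
  have h2 : 0 ≤ (inner ℝ (p + q) (q - p)) ^ 2 *
        (1 + (‖p‖ ^ 2 + ‖q‖ ^ 2) / 2 + ‖p + q‖ ^ 2 / 4) := by positivity
  have h3 : 1 ≤ (1 + (‖p‖ ^ 2 + ‖q‖ ^ 2) / 2) ^ 2 := by
    have : 0 ≤ (‖p‖ ^ 2 + ‖q‖ ^ 2) / 2 := by positivity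
    nlinarith
  have h4 : ‖q - p‖ ^ 2 ≤ 0 := by nlinarith [sq_nonneg ‖q - p‖]
  have h5 : ‖q - p‖ = 0 := by nlinarith [norm_nonneg (q - p)]
  exact (sub_eq_zero.mp (norm_eq_zero.mp h5)).symm

theorem rad_mem {z : Plane} (hz : z ∈ Metric.closedBall (0 : Plane) 1) :
    rad z ∈ Metric.closedBall (0 : Plane) 1 := by
  rw [mem_closedBall_zero_iff] at hz ⊢
  rw [norm_rad]
  have := norm_nonneg z
  nlinarith [sq_nonneg ‖z‖]

/-- The radial map on the disk. -/
noncomputable def radD (z : Disk) : Disk := ⟨rad z, rad_mem z.2⟩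

theorem continuous_radD : Continuous radD :=
  (continuous_rad.comp continuous_subtype_val).subtype_mk _

theorem radD_injective : Function.Injective radD := fun _ _ h =>
  Subtype.ext (rad_injective (congrArg Subtype.val h))

theorem radD_surjective : Function.Surjective radD := by
  rintro ⟨w, hw⟩
  rw [mem_closedBall_zero_iff] at hw
  have hcont : ContinuousOn (fun r : ℝ => (1 + r ^ 2) / 2 * r) (Set.Icc 0 1) := by fun_prop
  have hivt := intermediate_value_Icc (zero_le_one' ℝ) hcont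
  have hmem : ‖w‖ ∈ Set.Icc ((1 + (0 : ℝ) ^ 2) / 2 * 0) ((1 + (1 : ℝ) ^ 2) / 2 * 1) := by
    constructor
    · simp
    · norm_num
      exact hw
  obtain ⟨r, ⟨hr0, hr1⟩, hr⟩ := hivt hmem
  simp only at hr
  by_cases hw0 : w = 0
  · refine ⟨⟨0, by simp⟩, Subtype.ext ?_⟩
    change rad 0 = w
    rw [hw0, rad, smul_zero]
  have hwpos : 0 < ‖w‖ := norm_pos_iff.mpr hw0
  have hnorm : ‖(r / ‖w‖) • w‖ = r := by
    rw [norm_smul, Real.norm_of_nonneg (by positivity)]
    field_simp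
  refine ⟨⟨(r / ‖w‖) • w, ?_⟩, Subtype.ext ?_⟩
  · rw [mem_closedBall_zero_iff, hnorm]
    exact hr1
  · change rad ((r / ‖w‖) • w) = w
    rw [rad, hnorm, smul_smul]
    have : (1 + r ^ 2) / 2 * (r / ‖w‖) = 1 := by
      rw [← mul_div_assoc, hr, div_self hwpos.ne']
    rw [this, one_smul]

/-- The homeomorphism of the disk. -/
noncomputable def TT : Disk ≃ₜ Disk :=
  Continuous.homeoOfEquivCompactToT2 (f := Equiv.ofBijective radD
    ⟨radD_injective, radD_surjective⟩) continuous_radD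

theorem TT_apply (z : Disk) : (TT z : Plane) = rad z := rfl

/-! ### The equation of an edge -/

/-- Unit vector from `p` to `q`. -/
noncomputable def dir (p q : Plane) : Plane := (‖q - p‖⁻¹ : ℝ) • (q - p)

theorem norm_dir {p q : Plane} (h : p ≠ q) : ‖dir p q‖ = 1 := by
  have : ‖q - p‖ ≠ 0 := norm_ne_zero_iff.mpr (sub_ne_zero.mpr (Ne.symm h))
  rw [dir, norm_smul, norm_inv, norm_norm, inv_mul_cancel₀ this]

theorem edge_eq {p q : Disk} (h : p ≠ q) (hd : dist (TT p) (TT q) = dist p q) :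
    4 * (inner ℝ ((1 / 2 : ℝ) • ((p : Plane) + q)) (dir p q)) ^ 2 *
      (1 + (‖(p : Plane)‖ ^ 2 + ‖(q : Plane)‖ ^ 2) / 2 + ‖(1 / 2 : ℝ) • ((p : Plane) + q)‖ ^ 2) =
      (1 - (‖(p : Plane)‖ ^ 2 + ‖(q : Plane)‖ ^ 2) / 2) *
        (3 + (‖(p : Plane)‖ ^ 2 + ‖(q : Plane)‖ ^ 2) / 2) := by
  have hne : (p : Plane) ≠ q := fun h' => h (Subtype.ext h')
  have hpos : 0 < ‖(q : Plane) - p‖ := norm_pos_iff.mpr (sub_ne_zero.mpr (Ne.symm hne))
  rw [Subtype.dist_eq, Subtype.dist_eq, TT_apply, TT_apply, dist_comm, dist_comm (p : Plane),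
    dist_eq_norm, dist_eq_norm] at hd
  have h1 := rad_sub_sq (p : Plane) q
  rw [hd] at h1
  rw [dir, inner_smul_left, inner_smul_right, norm_smul]
  simp only [conj_trivial]
  rw [show ‖(1 / 2 : ℝ)‖ = 1 / 2 by norm_num]
  set L := ‖(q : Plane) - p‖ with hL
  set S := inner ℝ ((p : Plane) + q) ((q : Plane) - p) with hS
  have h2 : 4 * (1 / 2 * (L⁻¹ * S)) ^ 2 = S ^ 2 / L ^ 2 := by
    field_simp
    ring
  rw [h2, div_mul_eq_mul_div, div_eq_iff (by positivity)]
  nlinarith [h1]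

/-- The limit equation. -/
theorem limit_eq (p q : ℕ → Disk) (hne : ∀ n, p n ≠ q n)
    (hd : ∀ n, dist (TT (p n)) (TT (q n)) = dist (p n) (q n)) (x u : Plane)
    (hp : Tendsto (fun n => (p n : Plane)) atTop (𝓝 x))
    (hq : Tendsto (fun n => (q n : Plane)) atTop (𝓝 x))
    (hu : Tendsto (fun n => dir (p n) (q n)) atTop (𝓝 u)) :
    4 * (inner ℝ x u) ^ 2 * (1 + 2 * ‖x‖ ^ 2) = (1 - ‖x‖ ^ 2) * (3 + ‖x‖ ^ 2) := by
  have hm : Tendsto (fun n => (1 / 2 : ℝ) • ((p n : Plane) + q n)) atTop (𝓝 x) := by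
    have := (hp.add hq).const_smul (1 / 2 : ℝ)
    rwa [← two_smul ℝ x, smul_smul, show (1 / 2 : ℝ) * 2 = 1 by norm_num, one_smul] at this
  have ha : Tendsto (fun n => (‖(p n : Plane)‖ ^ 2 + ‖(q n : Plane)‖ ^ 2) / 2) atTop
      (𝓝 (‖x‖ ^ 2)) := by
    have := ((hp.norm.pow 2).add (hq.norm.pow 2)).div_const 2
    rwa [show (‖x‖ ^ 2 + ‖x‖ ^ 2) / 2 = ‖x‖ ^ 2 by ring] at this
  have hL := (((hm.inner hu).pow 2).const_mul 4).mul ((ha.const_add 1).add (hm.norm.pow 2))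
  have hR := (ha.const_sub 1).mul (ha.const_add 3)
  have heq : (fun n => 4 * (inner ℝ ((1 / 2 : ℝ) • ((p n : Plane) + q n)) (dir (p n) (q n))) ^ 2 *
      (1 + (‖(p n : Plane)‖ ^ 2 + ‖(q n : Plane)‖ ^ 2) / 2 +
        ‖(1 / 2 : ℝ) • ((p n : Plane) + q n)‖ ^ 2)) =
      fun n => (1 - (‖(p n : Plane)‖ ^ 2 + ‖(q n : Plane)‖ ^ 2) / 2) *
        (3 + (‖(p n : Plane)‖ ^ 2 + ‖(q n : Plane)‖ ^ 2) / 2) := by
    funext n
    exact edge_eq (hne n) (hd n)
  rw [heq] at hL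
  have := tendsto_nhds_unique hL hR
  rw [← this]
  ring

/-! ### Plane algebra -/

theorem algebra {x0 x1 u0 u1 v0 v1 w0 w1 : ℝ} (hu : u0 ^ 2 + u1 ^ 2 = 1)
    (hv : v0 ^ 2 + v1 ^ 2 = 1) (hw : w0 ^ 2 + w1 ^ 2 = 1) (hx : 0 < x0 ^ 2 + x1 ^ 2)
    (huv : (x0 * u0 + x1 * u1) ^ 2 = (x0 * v0 + x1 * v1) ^ 2)
    (huw : (x0 * u0 + x1 * u1) ^ 2 = (x0 * w0 + x1 * w1) ^ 2) :
    (u0 * v0 + u1 * v1) ^ 2 = 1 ∨ (u0 * w0 + u1 * w1) ^ 2 = 1 ∨ (v0 * w0 + v1 * w1) ^ 2 = 1 := by
  set N := x0 ^ 2 + x1 ^ 2 with hN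
  -- coordinates along `x` and its rotation
  obtain ⟨au, hau⟩ : ∃ a, a = x0 * u0 + x1 * u1 := ⟨_, rfl⟩
  obtain ⟨av, hav⟩ : ∃ a, a = x0 * v0 + x1 * v1 := ⟨_, rfl⟩
  obtain ⟨aw, haw⟩ : ∃ a, a = x0 * w0 + x1 * w1 := ⟨_, rfl⟩
  obtain ⟨bu, hbu⟩ : ∃ a, a = x0 * u1 - x1 * u0 := ⟨_, rfl⟩
  obtain ⟨bv, hbv⟩ : ∃ a, a = x0 * v1 - x1 * v0 := ⟨_, rfl⟩
  obtain ⟨bw, hbw⟩ : ∃ a, a = x0 * w1 - x1 * w0 := ⟨_, rfl⟩
  have e1 : au ^ 2 + bu ^ 2 = N := by
    rw [hau, hbu, hN]
    linear_combination (x0 ^ 2 + x1 ^ 2) * hu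
  have e2 : av ^ 2 + bv ^ 2 = N := by
    rw [hav, hbv, hN]
    linear_combination (x0 ^ 2 + x1 ^ 2) * hv
  have e3 : aw ^ 2 + bw ^ 2 = N := by
    rw [haw, hbw, hN]
    linear_combination (x0 ^ 2 + x1 ^ 2) * hw
  rw [← hau, ← hav] at huv
  rw [← hau, ← haw] at huw
  have e4 : bu ^ 2 = bv ^ 2 := by linarith
  have e5 : bu ^ 2 = bw ^ 2 := by linarith
  have f1 : N * (u0 * v0 + u1 * v1) = au * av + bu * bv := by
    rw [hau, hav, hbu, hbv, hN]
    ring
  have f2 : N * (u0 * w0 + u1 * w1) = au * aw + bu * bw := by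
    rw [hau, haw, hbu, hbw, hN]
    ring
  have f3 : N * (v0 * w0 + v1 * w1) = av * aw + bv * bw := by
    rw [hav, haw, hbv, hbw, hN]
    ring
  have g : ∀ s t : ℝ, N * s = t → t ^ 2 = N ^ 2 → s ^ 2 = 1 := by
    intro s t h1 h2
    rw [← h1, mul_pow] at h2
    have h3 : N ^ 2 ≠ 0 := by positivity
    exact mul_left_cancel₀ h3 (by rw [h2, mul_one])
  rcases sq_eq_sq_iff_eq_or_eq_neg.mp huv with h1 | h1 <;>
  rcases sq_eq_sq_iff_eq_or_eq_neg.mp huw with h2 | h2 <;>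
  rcases sq_eq_sq_iff_eq_or_eq_neg.mp e4 with h3 | h3 <;>
  rcases sq_eq_sq_iff_eq_or_eq_neg.mp e5 with h4 | h4 <;>
  first
  | exact Or.inl (g _ _ f1 (by rw [← e1, h1, h3]; ring1))
  | exact Or.inr (Or.inl (g _ _ f2 (by rw [← e1, h2, h4]; ring1)))
  | exact Or.inr (Or.inr (g _ _ f3 (by
      rw [← e2, show av = aw by linarith, show bv = bw by linarith]; ring1)))
  | exact Or.inr (Or.inr (g _ _ f3 (by
      rw [← e2, show av = -aw by linarith, show bv = -bw by linarith]; ring1)))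

theorem inner_dir (p q r : Plane) : inner ℝ (dir p q) (dir p r) = Real.cos (∠ q p r) := by
  rw [EuclideanGeometry.angle, InnerProductGeometry.cos_angle, dir, dir, inner_smul_left,
    inner_smul_right]
  simp only [conj_trivial, vsub_eq_sub]
  ring

theorem dir_swap (p q : Plane) : dir q p = - dir p q := by
  rw [dir, dir, norm_sub_rev, ← smul_neg, neg_sub]

theorem cos_sq_ne_one {a : ℝ} (h0 : 0 < a) (h1 : a < Real.pi) : Real.cos a ^ 2 ≠ 1 := by
  have h2 := Real.sin_pos_of_pos_of_lt_pi h0 h1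
  have h3 := Real.sin_sq_add_cos_sq a
  intro h
  rw [h] at h3
  nlinarith

theorem no_small {α β γ : ℝ} (hα : 0 < α) (hβ : 0 < β) (hγ : 0 < γ)
    (hsum : α + β + γ = Real.pi) : ¬ HasSmallTriangles TT α β γ := by
  intro h
  have hpos : ∀ n : ℕ, (0 : ℝ) < 1 / ((n : ℝ) + 1) := fun n => by positivity
  choose p q r hA hC hS using fun n : ℕ => h (1 / ((n : ℝ) + 1)) (hpos n)
  have h1 := fun n => (hS n).1
  have h2 := fun n => (hS n).2.1
  have hpq : ∀ n, p n ≠ q n := by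
    intro n he
    apply (hA n).1
    rw [he]
    simp [collinear_pair]
  have hpr : ∀ n, p n ≠ r n := by
    intro n he
    apply (hA n).1
    rw [he, Set.pair_comm, Set.insert_comm]
    simp [collinear_pair]
  have hqr : ∀ n, q n ≠ r n := by
    intro n he
    apply (hA n).1
    rw [he]
    simp [collinear_pair]
  have hpq' : ∀ n, (p n : Plane) ≠ q n := fun n he => hpq n (Subtype.ext he)
  have hpr' : ∀ n, (p n : Plane) ≠ r n := fun n he => hpr n (Subtype.ext he)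
  have hqr' : ∀ n, (q n : Plane) ≠ r n := fun n he => hqr n (Subtype.ext he)
  let K : Set (Plane × Plane × Plane × Plane) :=
    Metric.closedBall 0 1 ×ˢ Metric.sphere 0 1 ×ˢ Metric.sphere 0 1 ×ˢ Metric.sphere 0 1
  have hK : IsCompact K :=
    (isCompact_closedBall _ _).prod ((isCompact_sphere _ _).prod
      ((isCompact_sphere _ _).prod (isCompact_sphere _ _)))
  let s : ℕ → Plane × Plane × Plane × Plane := fun n =>
    ((p n : Plane), dir (p n) (q n), dir (p n) (r n), dir (q n) (r n))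
  have hs : ∀ n, s n ∈ K := by
    intro n
    refine ⟨(p n).2, ?_, ?_, ?_⟩
    · rw [mem_sphere_zero_iff_norm]
      exact norm_dir (hpq' n)
    · rw [mem_sphere_zero_iff_norm]
      exact norm_dir (hpr' n)
    · rw [mem_sphere_zero_iff_norm]
      exact norm_dir (hqr' n)
  obtain ⟨⟨x, u, v, w⟩, hmem, φ, hφ, hlim⟩ := hK.tendsto_subseq hs
  obtain ⟨-, hu1, hv1, hw1⟩ := hmem
  rw [mem_sphere_zero_iff_norm] at hu1 hv1 hw1
  have hlx : Tendsto (fun n => (p (φ n) : Plane)) atTop (𝓝 x) :=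
    (continuous_fst.tendsto _).comp hlim
  have hlu : Tendsto (fun n => dir (p (φ n)) (q (φ n))) atTop (𝓝 u) :=
    ((continuous_fst.comp continuous_snd).tendsto _).comp hlim
  have hlv : Tendsto (fun n => dir (p (φ n)) (r (φ n))) atTop (𝓝 v) :=
    ((continuous_fst.comp (continuous_snd.comp continuous_snd)).tendsto _).comp hlim
  have hlw : Tendsto (fun n => dir (q (φ n)) (r (φ n))) atTop (𝓝 w) :=
    ((continuous_snd.comp (continuous_snd.comp continuous_snd)).tendsto _).comp hlim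
  have hsmall : Tendsto (fun n => 1 / (((φ n : ℕ) : ℝ) + 1)) atTop (𝓝 0) :=
    tendsto_one_div_add_atTop_nhds_zero_nat.comp hφ.tendsto_atTop
  have hlq : Tendsto (fun n => (q (φ n) : Plane)) atTop (𝓝 x) := by
    have hd : Tendsto (fun n => dist (p (φ n) : Plane) (q (φ n))) atTop (𝓝 0) :=
      squeeze_zero (fun n => dist_nonneg) (fun n => (h1 (φ n)).le) hsmall
    exact (tendsto_iff_of_dist hd).mp hlx
  have hlr : Tendsto (fun n => (r (φ n) : Plane)) atTop (𝓝 x) := by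
    have hd : Tendsto (fun n => dist (p (φ n) : Plane) (r (φ n))) atTop (𝓝 0) :=
      squeeze_zero (fun n => dist_nonneg) (fun n => (h2 (φ n)).le) hsmall
    exact (tendsto_iff_of_dist hd).mp hlx
  have E1 := limit_eq (fun n => p (φ n)) (fun n => q (φ n)) (fun n => hpq _)
    (fun n => (hC (φ n)).1) x u hlx hlq hlu
  have E2 := limit_eq (fun n => p (φ n)) (fun n => r (φ n)) (fun n => hpr _)
    (fun n => (hC (φ n)).2.1) x v hlx hlr hlv
  have E3 := limit_eq (fun n => q (φ n)) (fun n => r (φ n)) (fun n => hqr _)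
    (fun n => (hC (φ n)).2.2) x w hlq hlr hlw
  -- the limit directions are pairwise non parallel
  have I1 : inner ℝ u v = Real.cos α := by
    refine tendsto_nhds_unique (hlu.inner hlv) ?_
    have : (fun n => inner ℝ (dir (p (φ n)) (q (φ n))) (dir (p (φ n)) (r (φ n)))) =
        fun _ => Real.cos α := by
      funext n
      rw [inner_dir, (hA (φ n)).2.1]
    rw [this]
    exact tendsto_const_nhds
  have I2 : inner ℝ u w = -Real.cos β := by
    refine tendsto_nhds_unique (hlu.inner hlw) ?_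
    have : (fun n => inner ℝ (dir (p (φ n)) (q (φ n))) (dir (q (φ n)) (r (φ n)))) =
        fun _ => -Real.cos β := by
      funext n
      rw [dir_swap (q (φ n) : Plane) (p (φ n)), inner_neg_left, inner_dir, (hA (φ n)).2.2.1]
    rw [this]
    exact tendsto_const_nhds
  have I3 : inner ℝ v w = Real.cos γ := by
    refine tendsto_nhds_unique (hlv.inner hlw) ?_
    have : (fun n => inner ℝ (dir (p (φ n)) (r (φ n))) (dir (q (φ n)) (r (φ n)))) =
        fun _ => Real.cos γ := by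
      funext n
      rw [dir_swap (r (φ n) : Plane) (p (φ n)), dir_swap (r (φ n) : Plane) (q (φ n)),
        inner_neg_left, inner_neg_right, neg_neg, inner_dir, (hA (φ n)).2.2.2]
    rw [this]
    exact tendsto_const_nhds
  have hx : 0 < ‖x‖ ^ 2 := by
    by_contra hcon
    have hx0 : ‖x‖ ^ 2 = 0 := le_antisymm (not_lt.mp hcon) (sq_nonneg _)
    have hx1 : x = 0 := by
      rw [← norm_eq_zero]
      exact pow_eq_zero_iff (two_ne_zero) |>.mp hx0
    rw [hx1, inner_zero_left, norm_zero] at E1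
    norm_num at E1
  have hfac : 0 < 1 + 2 * ‖x‖ ^ 2 := by positivity
  have S1 : (inner ℝ x u) ^ 2 = (inner ℝ x v) ^ 2 := by
    have := E1.trans E2.symm
    have h4 := mul_right_cancel₀ hfac.ne' this
    linarith
  have S2 : (inner ℝ x u) ^ 2 = (inner ℝ x w) ^ 2 := by
    have := E1.trans E3.symm
    have h4 := mul_right_cancel₀ hfac.ne' this
    linarith
  have hu2 : ‖u‖ ^ 2 = 1 := by rw [hu1, one_pow]
  have hv2 : ‖v‖ ^ 2 = 1 := by rw [hv1, one_pow]
  have hw2 : ‖w‖ ^ 2 = 1 := by rw [hw1, one_pow]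
  have hia : ∀ a b : Plane, inner ℝ a b = a 0 * b 0 + a 1 * b 1 := by
    intro a b
    rw [PiLp.inner_apply, Fin.sum_univ_two]
    simp only [RCLike.inner_apply, conj_trivial]
    ring
  have hna : ∀ a : Plane, ‖a‖ ^ 2 = a 0 ^ 2 + a 1 ^ 2 := by
    intro a
    rw [EuclideanSpace.norm_sq_eq, Fin.sum_univ_two, Real.norm_eq_abs, Real.norm_eq_abs, sq_abs,
      sq_abs]
  rw [hna] at hx hu2 hv2 hw2
  rw [hia, hia] at S1 S2
  rw [hia] at I1 I2 I3
  rcases algebra hu2 hv2 hw2 hx S1 S2 with h4 | h4 | h4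
  · rw [I1] at h4
    exact cos_sq_ne_one hα (by linarith) h4
  · rw [I2, neg_sq] at h4
    exact cos_sq_ne_one hβ (by linarith) h4
  · rw [I3] at h4
    exact cos_sq_ne_one hγ (by linarith) h4

/-- **Q2 has a negative answer, for all angles at once**: some homeomorphism `T` of the closed disk
has, for no triple of positive angles with sum `π`, arbitrarily small triangles with these angles
congruent to their images. -/
theorem result : ∃ T : Disk ≃ₜ Disk, ∀ α β γ : ℝ, 0 < α → 0 < β → 0 < γ → α + β + γ = Real.pi →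
    ¬ HasSmallTriangles T α β γ :=
  ⟨TT, fun _ _ _ hα hβ hγ hsum => no_small hα hβ hγ hsum⟩

end Pool.Agent.Results.MP_623bad_gt.NoSmallSimilar
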